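import Pool.Agent.H25.BCE.Stmts

/-!
Module HAM of board `bce` (MP_696a38_gt): the Hamiltonian is a smooth function on the manifold.
-/

set_option autoImplicit false

namespace Pool.Agent.H59.BCE

open scoped ContDiff Topology
open Pool.Agent.H73 (P solA mu0 Gam)
open Pool.Agent.H25.BCE

theorem en_contDiff : ContDiff ℝ ∞ En :=
  Pool.Agent.H73.solA_contDiff (k := 0) mu0 2

/-- the block function -/
noncomputable def bf (x : P 3) : ℝ := expNegInvGlue (dl - En x)

theorem bf_contDiff : ContDiff ℝ ∞ bf :=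
  expNegInvGlue.contDiff.comp (contDiff_const.sub en_contDiff)

theorem ham_eq (x : P 3) : Ham x = -cc * ∑ᶠ r : ℤ × Gam, bf (x + sh r) := rfl

theorem HAM_thm (hPER : PERStmt) (hBLD : BLDStmt) (hBLF : BLFStmt) (hDIN : DINStmt)
    (hINV : INVStmt) : HAMStmt := by
  have key := hPER (ℤ × Gam) (fun r x => x + sh r) {x | En x < dl} bf
    (isOpen_lt en_contDiff.continuous continuous_const)
    (fun r => contDiff_id.add contDiff_const)
    (fun r r' x h h' => hBLD x r r' h h')
    hBLF bf_contDiff
    (fun x hx => by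
      have h : dl ≤ En x := not_lt.mp hx
      exact expNegInvGlue.zero_of_nonpos (by linarith))
  obtain ⟨h1, h2, h3⟩ := key
  refine ⟨⟨?_, ?_⟩, ?_, ?_⟩
  · exact contDiff_const.mul h1
  · intro g hg x
    rw [ham_eq, ham_eq, hINV bf (fun l a x => by
      unfold bf En
      rw [hDIN 2 l a x]) g hg x]
  · intro r x hr
    rw [ham_eq]
    exact congrArg (fun t => -cc * t) (h2 r x hr)
  · intro x hx
    rw [ham_eq, h3 x (fun r => not_lt.mpr (hx r)), mul_zero]

end Pool.Agent.H59.BCE
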