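import Pool.Agent.H25.BCE.Stmts

/-!
Module COC of board `bce` (MP_696a38_gt): the action of the deck group is cocompact.
-/

set_option autoImplicit false

namespace Pool.Agent.H59.BCE

open scoped ContDiff Topology
open Pool.Agent.H73 (P solA mu0 Gam)
open Pool.Agent.H25.BCE

theorem COC_thm (hLA3 : LA3Stmt) (hCCP : CCPStmt) : COCStmt := by
  obtain ⟨-, hcov, -, hbd⟩ := hLA3
  have hPer : 0 < Per := by linarith [hCCP.2]
  obtain ⟨R, hR⟩ := hbd.closure.subset_closedBall (0 : ℝ × ℝ)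
  have hb : ∀ y ∈ closure D2, |y.1| ≤ R ∧ |y.2| ≤ R := by
    intro y hy
    have h := hR hy
    rw [mem_closedBall_zero_iff] at h
    exact ⟨le_trans (by simpa using norm_fst_le y) h, le_trans (by simpa using norm_snd_le y) h⟩
  refine ⟨Metric.closedBall 0 (max R (max 1 Per)), isCompact_closedBall _ _, ?_⟩
  intro x
  -- the three reductions
  obtain ⟨l, hl0, hl1⟩ : ∃ l : ℤ, 0 ≤ x.1 2 + l ∧ x.1 2 + l ≤ 1 := by
    refine ⟨-⌊x.1 2⌋, ?_, ?_⟩
    · push_cast
      linarith [Int.floor_le (x.1 2)]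
    · push_cast
      linarith [(Int.lt_floor_add_one (x.1 2)).le]
  set u : P 3 := dk l 0 0 0 x with hu
  obtain ⟨a, ha, haD⟩ := hcov (u.1 0, u.1 1)
  obtain ⟨b, hbG, hbD⟩ := hcov (u.2 0, u.2 1)
  obtain ⟨j, hj0, hj1⟩ : ∃ j : ℤ, 0 ≤ u.2 2 + j * Per ∧ u.2 2 + j * Per ≤ Per := by
    refine ⟨-⌊u.2 2 / Per⌋, ?_, ?_⟩
    · push_cast
      have := Int.floor_le (u.2 2 / Per)
      rw [le_div_iff₀ hPer] at this
      linarith
    · push_cast
      have := (Int.lt_floor_add_one (u.2 2 / Per)).le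
      rw [div_le_iff₀ hPer] at this
      linarith
  have hu2 : u.1 2 = x.1 2 + l := by
    rw [hu, dk_apply]
    simp only [Prod.fst_add, Pi.add_apply, LL_fst]
    simp [trn, wt]
    ring
  refine ⟨dk 0 j a b * dk l 0 0 0, G0.mul_mem (dk_mem ha hbG) (dk_mem Gam.zero_mem Gam.zero_mem), ?_⟩
  have hgx : (dk 0 j a b * dk l 0 0 0) x = trn 0 j a b + LL 0 u := by
    rw [AffineEquiv.mul_def, AffineEquiv.trans_apply, dk_apply]
  rw [hgx, mem_closedBall_zero_iff]
  obtain ⟨ha1, ha2⟩ := hb _ haD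
  obtain ⟨hb1, hb2⟩ := hb _ hbD
  simp only [Prod.fst_add, Prod.snd_add] at ha1 ha2 hb1 hb2
  have hM0 : 0 ≤ max R (max 1 Per) := le_max_of_le_right (le_max_of_le_left zero_le_one)
  rw [Prod.norm_def]
  refine max_le ?_ ?_
  · rw [pi_norm_le_iff_of_nonneg hM0]
    intro i
    rw [Real.norm_eq_abs, Prod.fst_add, Pi.add_apply, LL_fst]
    fin_cases i
    · simp [trn, wt]
      left
      rw [add_comm]
      exact ha1
    · simp [trn, wt]
      left
      rw [add_comm]
      exact ha2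
    · simp [trn, wt]
      right; left
      rw [hu2, abs_le]
      constructor <;> linarith
  · rw [pi_norm_le_iff_of_nonneg hM0]
    intro i
    rw [Real.norm_eq_abs, Prod.snd_add, Pi.add_apply, LL_snd]
    fin_cases i
    · simp [trn, wt]
      left
      rw [add_comm]
      exact hb1
    · simp [trn, wt]
      left
      rw [add_comm]
      exact hb2
    · simp [trn, wt]
      right; right
      rw [add_comm, abs_le]
      constructor <;> linarith

end Pool.Agent.H59.BCE
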